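import Pool.Agent.H552Z.TP.Main

/-!
# A trace-positive polynomial that is not a sum of squares and commutators of rational functions

Elements of the free skew field are represented by nondegenerate rational expressions, and two
expressions represent the same element when they agree at all matrix tuples of their common domain.
-/

namespace Pool.Agent.Results.MP_0219da_al.NotRationalSOS

open Pool.Agent.H552Z.TP

/-- For every `g ≥ 2` there is a trace-positive polynomial `p` in `g` noncommuting variables for
which there are no nondegenerate rational expressions `r i`, `s j`, `t j` such that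
`p = Σ (r i)* (r i) + Σ [s j, t j]` holds at all matrix tuples of the common domain. -/
theorem result (g : ℕ) (hg : 2 ≤ g) :
    ∃ p : FreeAlgebra ℝ (Fin g), TracePositive p ∧
      ¬ ∃ (m k : ℕ) (r : Fin m → RExpr g) (s t : Fin k → RExpr g),
        (∀ i, (r i).Nondegenerate) ∧ (∀ j, (s j).Nondegenerate ∧ (t j).Nondegenerate) ∧
        ∀ (n : ℕ) (X : Fin g → Matrix (Fin n) (Fin n) ℝ),
          (∀ i, (r i).Dom X ∧ (r i).adj.Dom X) → (∀ j, (s j).Dom X ∧ (t j).Dom X) →
          FreeAlgebra.lift ℝ X p = ∑ i, (r i).adj.eval X * (r i).eval X +
            ∑ j, ((s j).eval X * (t j).eval X - (t j).eval X * (s j).eval X) :=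
  main g hg

end Pool.Agent.Results.MP_0219da_al.NotRationalSOS
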